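import Pool.Agent.H29.LA.Targets

/-!
# The row UNS: adjunction of several roots with unit derivative
-/

set_option autoImplicit false

open AlgebraicGeometry CategoryTheory Polynomial IntermediateField
open scoped MonObj TensorProduct WithZero
open Pool.H27.LG2
open Pool.Agent.H29.LA

noncomputable section

namespace Pool.Agent.H16.LA

theorem pf_UNS (hUNR : T_UNR) : T_UNS := by
  intro K Ω _ _ _ Γ₀ _ V π S h0 h1 hK hS
  classical
  induction S using Finset.induction_on with
  | empty =>
    intro a ha
    obtain ⟨b, hb⟩ : ∃ b : K, algebraMap K Ω b = algebraMap _ Ω a := by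
      have h3 : ∀ x : Ω, x ∈ IntermediateField.adjoin K ((∅ : Finset Ω) : Set Ω) →
          ∃ b : K, algebraMap K Ω b = x := by
        intro x hx
        rw [Finset.coe_empty, IntermediateField.adjoin_empty, IntermediateField.mem_bot] at hx
        exact hx
      exact h3 _ a.2
    have hb0 : b ≠ 0 := by
      intro h2
      rw [h2, map_zero] at hb
      exact ha ((map_eq_zero (algebraMap _ Ω)).1 hb.symm)
    obtain ⟨n, hn⟩ := hK b hb0
    exact ⟨n, by rw [← hb, hn]⟩
  | insert u S _ ih =>
    have ih' := ih fun w hw => hS w (Finset.mem_insert_of_mem hw)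
    obtain ⟨G, hG1, hG2, hG3, hG4⟩ := hS u (Finset.mem_insert_self u S)
    have key := hUNR (IntermediateField.adjoin K (S : Set Ω)) Ω Γ₀ V
      (algebraMap K (IntermediateField.adjoin K (S : Set Ω)) π) u
      (G.map (algebraMap K (IntermediateField.adjoin K (S : Set Ω))))
      (by rw [← IsScalarTower.algebraMap_apply]; exact h0)
      (by rw [← IsScalarTower.algebraMap_apply]; exact h1)
      (by rw [← IsScalarTower.algebraMap_apply]; exact ih')
      (hG1.map _)
      (by
        intro i
        rw [coeff_map, ← IsScalarTower.algebraMap_apply]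
        exact hG2 i)
      (by rw [aeval_map_algebraMap]; exact hG3)
      (by rw [derivative_map, aeval_map_algebraMap]; exact hG4)
    rw [← IsScalarTower.algebraMap_apply] at key
    intro a ha
    have h2 : (a : Ω) ∈ IntermediateField.adjoin (IntermediateField.adjoin K (S : Set Ω))
        ({u} : Set Ω) := by
      rw [← IntermediateField.mem_restrictScalars K, IntermediateField.adjoin_adjoin_left]
      have h3 : (a : Ω) ∈ IntermediateField.adjoin K ((insert u S : Finset Ω) : Set Ω) := a.2
      have h4 : ((insert u S : Finset Ω) : Set Ω) = (S : Set Ω) ∪ {u} := by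
        rw [Finset.coe_insert, Set.union_singleton]
      exact (congrArg (fun T : Set Ω => (a : Ω) ∈ IntermediateField.adjoin K T) h4).mp h3
    obtain ⟨n, hn⟩ := key ⟨(a : Ω), h2⟩ (by
      intro h3
      have h4 : (a : Ω) = 0 := congrArg Subtype.val h3
      exact ha (Subtype.ext h4))
    exact ⟨n, hn⟩

end Pool.Agent.H16.LA
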